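import Pool.Agent.H.MP_deb346_gt.J

set_option autoImplicit false

namespace Pool.Agent.Results.MP_deb346_gt.Classical

open Set Filter Topology

/-- `d` is a metric on the set `M`. -/
def MetricOn {X : Type} (M : Set X) (d : X → X → ℝ) : Prop :=
  (∀ x ∈ M, ∀ y ∈ M, d x y = 0 ↔ x = y) ∧ (∀ x ∈ M, ∀ y ∈ M, d x y = d y x) ∧
    ∀ x ∈ M, ∀ y ∈ M, ∀ z ∈ M, d x z ≤ d x y + d y z

/-- Type (i): a nonempty open convex `M ⊆ ℝ²` with a continuous metric that is additive along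
segments. -/
def AffPlane (M : Set (ℝ × ℝ)) (d : ℝ × ℝ → ℝ × ℝ → ℝ) : Prop :=
  M.Nonempty ∧ IsOpen M ∧ Convex ℝ M ∧ MetricOn M d ∧
    ContinuousOn (fun p : (ℝ × ℝ) × (ℝ × ℝ) => d p.1 p.2) (M ×ˢ M) ∧
    ∀ x ∈ M, ∀ z ∈ M, ∀ y ∈ segment ℝ x z, d x y + d y z = d x z

/-- Every ellipse of radius `a < a₀` lies on a conic (zero set of a nonzero quadratic form in the
homogeneous coordinates `(y, 1)`). -/
def AffConics (M : Set (ℝ × ℝ)) (d : ℝ × ℝ → ℝ × ℝ → ℝ) (a₀ : ℝ) : Prop :=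
  ∀ F₁ ∈ M, ∀ F₂ ∈ M, F₁ ≠ F₂ → ∀ a < a₀, d F₁ F₂ / 2 < a →
    ∃ Q : QuadraticForm ℝ ((ℝ × ℝ) × ℝ), Q ≠ 0 ∧
      ∀ y ∈ M, d F₁ y + d y F₂ = 2 * a → Q (y, 1) = 0

/-- Every `d`-Cauchy sequence in `M` converges in `M`. -/
def Complete (M : Set (ℝ × ℝ)) (d : ℝ × ℝ → ℝ × ℝ → ℝ) : Prop :=
  ∀ u : ℕ → ℝ × ℝ, (∀ n, u n ∈ M) → (∀ ε > 0, ∃ N, ∀ m ≥ N, ∀ n ≥ N, d (u m) (u n) < ε) →
    ∃ x ∈ M, Tendsto (fun n => d x (u n)) atTop (𝓝 0)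

/-- The projective map induced by the linear isomorphism `T`, in affine coordinates. -/
noncomputable def pr (T : ((ℝ × ℝ) × ℝ) ≃ₗ[ℝ] EuclideanSpace ℝ (Fin 3)) (x : ℝ × ℝ) : ℝ × ℝ :=
  (T (x, 1) 0 / T (x, 1) 2, T (x, 1) 1 / T (x, 1) 2)

/-- `pr T` carries `k d` to the Euclidean distance. -/
def Euclid (M : Set (ℝ × ℝ)) (d : ℝ × ℝ → ℝ × ℝ → ℝ)
    (T : ((ℝ × ℝ) × ℝ) ≃ₗ[ℝ] EuclideanSpace ℝ (Fin 3)) (k : ℝ) : Prop :=
  (∀ x ∈ M, T (x, 1) 2 ≠ 0) ∧ ∀ x ∈ M, ∀ y ∈ M, k * d x y =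
    √(((pr T x).1 - (pr T y).1) ^ 2 + ((pr T x).2 - (pr T y).2) ^ 2)

/-- `cosh` of the distance of the Cayley–Klein model on the unit disc. -/
noncomputable def kleinCosh (u v : ℝ × ℝ) : ℝ :=
  (1 - (u.1 * v.1 + u.2 * v.2)) / √((1 - (u.1 ^ 2 + u.2 ^ 2)) * (1 - (v.1 ^ 2 + v.2 ^ 2)))

/-- `pr T` maps `M` into the unit disc and carries `k d` to the Cayley–Klein distance. -/
def Klein (M : Set (ℝ × ℝ)) (d : ℝ × ℝ → ℝ × ℝ → ℝ)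
    (T : ((ℝ × ℝ) × ℝ) ≃ₗ[ℝ] EuclideanSpace ℝ (Fin 3)) (k : ℝ) : Prop :=
  (∀ x ∈ M, T (x, 1) 2 ≠ 0 ∧ (pr T x).1 ^ 2 + (pr T x).2 ^ 2 < 1) ∧
    ∀ x ∈ M, ∀ y ∈ M, Real.cosh (k * d x y) = kleinCosh (pr T x) (pr T y)

/-- After a projective map and scaling, `d` is a classical metric; it is the whole Euclidean plane
or the whole Cayley–Klein disc when `d` is complete. -/
def AffClassical (M : Set (ℝ × ℝ)) (d : ℝ × ℝ → ℝ × ℝ → ℝ) : Prop :=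
  ∃ (T : ((ℝ × ℝ) × ℝ) ≃ₗ[ℝ] EuclideanSpace ℝ (Fin 3)) (k : ℝ), 0 < k ∧
    ((Euclid M d T k ∧ (Complete M d → pr T '' M = univ)) ∨
      (Klein M d T k ∧ (Complete M d → pr T '' M = {z | z.1 ^ 2 + z.2 ^ 2 < 1})) ∨
      ((∀ x ∈ M, ∀ y ∈ M, k * d x y = InnerProductGeometry.angle (T (x, 1)) (T (y, 1))) ∧
        ¬ Complete M d))

/-- The real projective plane. -/
abbrev RP2 : Type := Projectivization ℝ (Fin 3 → ℝ)

/-- Type (ii): a continuous metric on `ℝP²` each of whose lines is an isometric copy of the circle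
`ℝ / Lℤ` of length `L`. -/
def ProjPlane (d : RP2 → RP2 → ℝ) (L : ℝ) : Prop :=
  0 < L ∧ MetricOn univ d ∧
    (Continuous fun p : {X : Fin 3 → ℝ // X ≠ 0} × {X : Fin 3 → ℝ // X ≠ 0} =>
      d (Projectivization.mk ℝ p.1.1 p.1.2) (Projectivization.mk ℝ p.2.1 p.2.2)) ∧
    ∀ W : Submodule ℝ (Fin 3 → ℝ), Module.finrank ℝ W = 2 → ∃ f : AddCircle L → RP2,
      (∀ s t, d (f s) (f t) = dist s t) ∧ range f = {p | p.submodule ≤ W}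

/-- Every ellipse of radius `a < a₀` lies on a conic. -/
def ProjConics (d : RP2 → RP2 → ℝ) (a₀ : ℝ) : Prop :=
  ∀ F₁ F₂, F₁ ≠ F₂ → ∀ a < a₀, d F₁ F₂ / 2 < a →
    ∃ Q : QuadraticForm ℝ (Fin 3 → ℝ), Q ≠ 0 ∧
      ∀ p : RP2, d F₁ p + d p F₂ = 2 * a → ∀ X ∈ p.submodule, Q X = 0

/-- After a projective map and scaling, `d` is the angle between lines through the origin. -/
def Elliptic (d : RP2 → RP2 → ℝ) : Prop :=
  ∃ (T : (Fin 3 → ℝ) ≃ₗ[ℝ] EuclideanSpace ℝ (Fin 3)) (k : ℝ), 0 < k ∧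
    ∀ (X Y : Fin 3 → ℝ) (hX : X ≠ 0) (hY : Y ≠ 0),
      k * d (Projectivization.mk ℝ X hX) (Projectivization.mk ℝ Y hY) =
        Real.arccos (|inner ℝ (T X) (T Y)| / (‖T X‖ * ‖T Y‖))

theorem qb {W : Type} [AddCommGroup W] [Module ℝ W] {Q : QuadraticForm ℝ W} (h : Q ≠ 0) :
    ∃ B : W →ₗ[ℝ] W →ₗ[ℝ] ℝ, (∃ X, B X X ≠ 0) ∧ ∀ X, B X X = Q X := by
  refine ⟨QuadraticMap.associated Q, ?_, fun X => QuadraticMap.associated_eq_self_apply ℝ Q X⟩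
  by_contra hn
  push Not at hn
  exact h (QuadraticMap.ext fun X => by
    rw [← QuadraticMap.associated_eq_self_apply ℝ Q X]; exact hn X)

open Pool.Agent.H.MP_deb346_gt in
theorem result :
    (∀ (M : Set (ℝ × ℝ)) (d : ℝ × ℝ → ℝ × ℝ → ℝ) (a₀ : ℝ), AffPlane M d → 0 < a₀ →
      AffConics M d a₀ → AffClassical M d) ∧
    ∀ (d : RP2 → RP2 → ℝ) (L a₀ : ℝ), ProjPlane d L → 0 < a₀ → ProjConics d a₀ → Elliptic d := by
  refine ⟨fun M d a₀ ⟨ne, o, c, ⟨m1, m2, m3⟩, ct, sg⟩ a0 cn => ?_,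
    fun d L a₀ ⟨L0, ⟨m1, m2, m3⟩, ct, ln⟩ a0 cn => ?_⟩
  · have h : QC M d a₀ :=
      { op := o, cv := c, refl := fun x hx => (m1 x hx x hx).2 rfl, symm := m2,
        sep := fun x hx y hy => (m1 x hx y hy).1, tri := m3, cont := ct, seg := sg, ap := a0,
        con := fun x hx x' hx' n a ha hd => by
          obtain ⟨Q, q0, hQ⟩ := cn x hx x' hx' n a ha (by linarith)
          obtain ⟨B, b0, hB⟩ := qb q0
          obtain ⟨c, l, q, b1, b2⟩ := con_coef B b0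
          exact ⟨c, l, q, b1, fun y hy e => by rw [← b2, hB]; exact hQ y hy e⟩ }
    obtain ⟨T, k, k0, H⟩ := h.cf.main1 ne
    refine ⟨T, k, k0, ?_⟩
    rcases H with ⟨a, b, e⟩ | ⟨a, b, e⟩ | H
    · exact Or.inl ⟨⟨a, b⟩, e⟩
    · exact Or.inr (Or.inl ⟨⟨a, b⟩, e⟩)
    · exact Or.inr (Or.inr H)
  · have h : El d L a₀ :=
      { sy := fun p q => m2 p trivial q trivial, z0 := fun p q => m1 p trivial q trivial,
        tr := fun p q r => m3 p trivial q trivial r trivial, ct := ct, L0 := L0, ln := ln,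
        ap := a0,
        con := fun p q n a ha hd => by
          obtain ⟨Q, q0, hQ⟩ := cn p q n a ha (by linarith)
          obtain ⟨B, b0, hB⟩ := qb q0
          exact ⟨B, b0, fun r e X hX => by rw [hB]; exact hQ r e X hX⟩ }
    exact h.main

end Pool.Agent.Results.MP_deb346_gt.Classical
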